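import Mathlib

/-!
Abstract form of the trace estimates: Toeplitz sections of a function `g` on the integers which is
nonpositive off zero, with row sums `φ i + φ n`, `φ > 0`, and `n (-g n) ≤ C φ (n-1)`.
-/

namespace Pool.Agent.K4H30.FNA

open Finset

structure Good (g : ℤ → ℝ) (φ : ℕ → ℝ) (C : ℝ) : Prop where
  nonpos : ∀ j : ℤ, j ≠ 0 → g j ≤ 0
  pos : ∀ n, 0 < φ n
  row : ∀ i n : ℕ, ∑ m ∈ range (i + n + 1), g ((i : ℤ) - (m : ℤ)) = φ i + φ n
  key : ∀ n : ℕ, ((n : ℝ) + 1) * (- g ((n : ℤ) + 1)) ≤ C * φ n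

variable {g : ℤ → ℝ} {φ : ℕ → ℝ} {C : ℝ}

lemma C_nonneg (h : Good g φ C) : 0 ≤ C := by
  have h1 := h.key 0
  have h2 := h.pos 0
  have h3 := h.nonpos ((0 : ℕ) + 1 : ℤ) (by norm_num)
  have h4 : 0 ≤ C * φ 0 := by
    refine le_trans ?_ h1
    apply mul_nonneg
    · positivity
    · linarith
  exact nonneg_of_mul_nonneg_left h4 h2

lemma row_sum_pos (h : Good g φ C) {i M : ℕ} (hi : i < M) :
    0 < ∑ m ∈ range M, g ((i : ℤ) - (m : ℤ)) := by
  obtain ⟨n, rfl⟩ : ∃ n, M = i + n + 1 := ⟨M - i - 1, by omega⟩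
  rw [h.row]
  have := h.pos i
  have := h.pos n
  linarith

lemma row_sum_ge (h : Good g φ C) {i M : ℕ} (hi : i < M) :
    φ i ≤ ∑ m ∈ range M, g ((i : ℤ) - (m : ℤ)) := by
  obtain ⟨n, rfl⟩ : ∃ n, M = i + n + 1 := ⟨M - i - 1, by omega⟩
  rw [h.row]
  have := h.pos n
  linarith

/-- comparison principle -/
lemma comp_nonneg (hg : Good g φ C) (N : ℕ) (x : ℕ → ℝ)
    (h : ∀ i < N, 0 ≤ ∑ m ∈ range N, g ((i : ℤ) - (m : ℤ)) * x m) :
    ∀ i < N, 0 ≤ x i := by
  intro i hi
  have hne : (range N).Nonempty := ⟨i, mem_range.2 hi⟩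
  obtain ⟨i0, hi0, hmin⟩ := exists_min_image (range N) x hne
  rw [mem_range] at hi0
  have hx0 : 0 ≤ x i0 := by
    by_contra hneg
    push Not at hneg
    have hle : ∑ m ∈ range N, g ((i0 : ℤ) - (m : ℤ)) * x m
        ≤ ∑ m ∈ range N, g ((i0 : ℤ) - (m : ℤ)) * x i0 := by
      apply sum_le_sum
      intro m hm
      by_cases hmi : m = i0
      · rw [hmi]
      · have hg' : g ((i0 : ℤ) - (m : ℤ)) ≤ 0 := hg.nonpos _ (by omega)
        have := hmin m hm
        nlinarith
    rw [← sum_mul] at hle
    have hp := row_sum_pos hg hi0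
    have := h i0 hi0
    nlinarith
  exact hx0.trans (hmin i (mem_range.2 hi))

lemma comp_le (hg : Good g φ C) (N : ℕ) (x y : ℕ → ℝ)
    (h : ∀ i < N, ∑ m ∈ range N, g ((i : ℤ) - (m : ℤ)) * x m
      ≤ ∑ m ∈ range N, g ((i : ℤ) - (m : ℤ)) * y m) :
    ∀ i < N, x i ≤ y i := by
  intro i hi
  have := comp_nonneg hg N (fun m => y m - x m) (by
    intro i hi
    have := h i hi
    simp only [mul_sub, sum_sub_distrib]
    linarith) i hi
  linarith

/-- Toeplitz section -/
noncomputable def T (g : ℤ → ℝ) (M : ℕ) : Matrix (Fin M) (Fin M) ℝ :=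
  Matrix.of fun i j => g (((i : ℕ) : ℤ) - ((j : ℕ) : ℤ))

/-- shifted Toeplitz section -/
noncomputable def B (g : ℤ → ℝ) (M k : ℕ) : Matrix (Fin M) (Fin M) ℝ :=
  Matrix.of fun i j => g (((i : ℕ) : ℤ) - ((j : ℕ) : ℤ) + (k : ℤ))

theorem isUnit_T (h : Good g φ C) (N : ℕ) : IsUnit (T g N) := by
  rw [← Matrix.mulVec_injective_iff_isUnit]
  intro v w hvw
  have key : ∀ v w : Fin N → ℝ, (T g N).mulVec v = (T g N).mulVec w → ∀ i, v i ≤ w i := by
    intro v w hvw i
    have := comp_le h N (fun m => if h : m < N then v ⟨m, h⟩ else 0)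
      (fun m => if h : m < N then w ⟨m, h⟩ else 0) (by
        intro i hi
        rw [sum_range, sum_range]
        have := congrFun hvw ⟨i, hi⟩
        simp only [Matrix.mulVec, dotProduct, T, Matrix.of_apply] at this
        simp only [Fin.is_lt, dite_true, Fin.eta]
        exact this.le) i.1 i.2
    simpa using this
  funext i
  exact le_antisymm (key v w hvw i) (key w v hvw.symm i)

/-- minus the coefficient at `i` in the prediction of the point `-r` from `{0, ..., N-1}` -/
noncomputable def U (g : ℤ → ℝ) (N r i : ℕ) : ℝ :=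
  if h : i < N then - ((T g N)⁻¹.mulVec fun z : Fin N => g (((z : ℕ) : ℤ) + (r : ℤ))) ⟨i, h⟩
  else 0

lemma U_eq (h : Good g φ C) (N r : ℕ) {i : ℕ} (hi : i < N) :
    ∑ m ∈ range N, g ((i : ℤ) - (m : ℤ)) * U g N r m = - g ((i : ℤ) + (r : ℤ)) := by
  rw [sum_range]
  have hu := isUnit_T h N
  have h2 : (T g N).mulVec ((T g N)⁻¹.mulVec
      fun z : Fin N => g (((z : ℕ) : ℤ) + (r : ℤ))) ⟨i, hi⟩ = g ((i : ℤ) + (r : ℤ)) := by
    rw [Matrix.mulVec_mulVec, Matrix.mul_nonsing_inv _ ((Matrix.isUnit_iff_isUnit_det _).1 hu),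
      Matrix.one_mulVec]
  rw [← h2]
  conv_rhs => rw [Matrix.mulVec, dotProduct]
  rw [← sum_neg_distrib]
  apply sum_congr rfl
  intro m _
  unfold U
  rw [dif_pos m.2]
  simp only [T, Matrix.of_apply, Fin.eta]
  ring

lemma U_out {N r i : ℕ} (hi : N ≤ i) : U g N r i = 0 := by
  unfold U
  rw [dif_neg (by omega)]

lemma U_nonneg (h : Good g φ C) (N : ℕ) {r : ℕ} (hr : 1 ≤ r) (i : ℕ) :
    0 ≤ U g N r i := by
  by_cases hi : i < N
  · apply comp_nonneg h N (U g N r) _ i hi
    intro i hi
    rw [U_eq h N r hi]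
    have := h.nonpos ((i : ℤ) + (r : ℤ)) (by omega)
    linarith
  · rw [U_out (by omega)]

lemma sum_window (F : ℕ → ℝ) {s N M : ℕ} (h : s + N ≤ M) :
    ∑ t ∈ range M, (if s ≤ t ∧ t < s + N then F t else 0) = ∑ i ∈ range N, F (s + i) := by
  rw [← sum_filter]
  have : (range M).filter (fun t => s ≤ t ∧ t < s + N) = Ico s (s + N) := by
    ext t; simp only [mem_filter, mem_range, mem_Ico]; omega
  rw [this, sum_Ico_eq_sum_range]
  simp

/-- one translate: after extension by zero the potential is a subsolution -/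
lemma translate (h : Good g φ C) {N M s : ℕ} (hs : s + N ≤ M) (t : ℕ) :
    ∑ t' ∈ range M, g ((t : ℤ) - (t' : ℤ)) *
        (if s ≤ t' ∧ t' < s + N then U g N (s + 1) (t' - s) else 0)
      ≤ if s ≤ t then - g ((t : ℤ) + 1) else 0 := by
  have e : ∑ t' ∈ range M, g ((t : ℤ) - (t' : ℤ)) *
        (if s ≤ t' ∧ t' < s + N then U g N (s + 1) (t' - s) else 0)
      = ∑ i ∈ range N, g ((t : ℤ) - ((s + i : ℕ) : ℤ)) * U g N (s + 1) i := by
    have w := sum_window (fun t' => g ((t : ℤ) - (t' : ℤ)) * U g N (s + 1) (t' - s)) hs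
    simp only [Nat.add_sub_cancel_left] at w
    rw [← w]
    apply sum_congr rfl
    intro t' _
    split_ifs <;> simp
  rw [e]
  by_cases ht : s ≤ t ∧ t < s + N
  · obtain ⟨i0, rfl⟩ := Nat.exists_eq_add_of_le ht.1
    rw [if_pos ht.1]
    have := U_eq h N (s + 1) (i := i0) (by omega)
    have e2 : ((s + i0 : ℕ) : ℤ) + 1 = (i0 : ℤ) + ((s + 1 : ℕ) : ℤ) := by push_cast; ring
    rw [e2, ← this]
    apply le_of_eq
    apply sum_congr rfl
    intro m _
    congr 2
    push_cast; ring
  · have hle : ∑ i ∈ range N, g ((t : ℤ) - ((s + i : ℕ) : ℤ)) * U g N (s + 1) i ≤ 0 := by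
      apply sum_nonpos
      intro i hi
      rw [mem_range] at hi
      apply mul_nonpos_of_nonpos_of_nonneg
      · apply h.nonpos
        omega
      · exact U_nonneg h N (by omega) i
    refine hle.trans ?_
    split_ifs
    · have := h.nonpos ((t : ℤ) + 1) (by omega)
      linarith
    · exact le_rfl

/-- the sum of the translates is at most `C` -/
lemma sum_diag_aux (h : Good g φ C) (N m : ℕ) (hm : 1 ≤ m) :
    ∑ s ∈ range m, (if s ≤ m - 1 ∧ m - 1 < s + N then U g N (s + 1) (m - 1 - s) else 0) ≤ C := by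
  have hC := C_nonneg h
  rcases Nat.eq_zero_or_pos N with rfl | hN
  · refine (sum_nonpos ?_).trans hC
    intro s hs
    rw [if_neg (by omega)]
  have := comp_le h (N + m - 1)
    (fun t => ∑ s ∈ range m, (if s ≤ t ∧ t < s + N then U g N (s + 1) (t - s) else 0))
    (fun _ => C) (by
      intro t ht
      have e1 : ∑ t' ∈ range (N + m - 1), g ((t : ℤ) - (t' : ℤ)) *
          ∑ s ∈ range m, (if s ≤ t' ∧ t' < s + N then U g N (s + 1) (t' - s) else 0)
          = ∑ s ∈ range m, ∑ t' ∈ range (N + m - 1), g ((t : ℤ) - (t' : ℤ)) *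
          (if s ≤ t' ∧ t' < s + N then U g N (s + 1) (t' - s) else 0) := by
        simp only [mul_sum]
        rw [sum_comm]
      rw [e1]
      have e2 : ∑ s ∈ range m, ∑ t' ∈ range (N + m - 1), g ((t : ℤ) - (t' : ℤ)) *
          (if s ≤ t' ∧ t' < s + N then U g N (s + 1) (t' - s) else 0)
          ≤ ∑ s ∈ range m, (if s ≤ t then - g ((t : ℤ) + 1) else 0) := by
        apply sum_le_sum
        intro s hs
        rw [mem_range] at hs
        exact translate h (by omega) t
      refine e2.trans ?_
      have hp : 0 ≤ - g ((t : ℤ) + 1) := by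
        have := h.nonpos ((t : ℤ) + 1) (by omega)
        linarith
      have e3 : ∑ s ∈ range m, (if s ≤ t then - g ((t : ℤ) + 1) else 0)
          ≤ ((t : ℝ) + 1) * (- g ((t : ℤ) + 1)) := by
        rw [← sum_filter, sum_const, nsmul_eq_mul]
        apply mul_le_mul_of_nonneg_right _ hp
        have : ((range m).filter (fun s => s ≤ t)).card ≤ (range (t + 1)).card := by
          apply card_le_card
          intro s hs
          simp only [mem_filter, mem_range] at hs ⊢
          omega
        rw [card_range] at this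
        exact_mod_cast this
      have e4 := h.key t
      have e5 : C * φ t ≤ C * ∑ m ∈ range (N + m - 1), g ((t : ℤ) - (m : ℤ)) :=
        mul_le_mul_of_nonneg_left (row_sum_ge h ht) hC
      rw [← sum_mul, mul_comm _ C]
      linarith) (m - 1) (by omega)
  exact this

/-- the diagonal estimate -/
lemma sum_diag (h : Good g φ C) (N m : ℕ) :
    ∑ j ∈ range N, (if j < m then U g N (m - j) j else 0) ≤ C := by
  rcases Nat.eq_zero_or_pos m with rfl | hm
  · simpa using C_nonneg h
  have e : ∑ j ∈ range N, (if j < m then U g N (m - j) j else 0)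
      = ∑ j ∈ range m, (if j < N then U g N (m - j) j else 0) := by
    rw [← sum_filter, ← sum_filter]
    congr 1
    ext j
    simp only [mem_filter, mem_range]
    omega
  rw [e, ← sum_range_reflect]
  refine le_trans (le_of_eq ?_) (sum_diag_aux h N m hm)
  apply sum_congr rfl
  intro s hs
  rw [mem_range] at hs
  have e1 : m - (m - 1 - s) = s + 1 := by omega
  rw [e1]
  by_cases h : m - 1 - s < N
  · rw [if_pos h, if_pos (by omega)]
  · rw [if_neg h, if_neg (by omega)]

/-- composition -/
lemma compose (h : Good g φ C) {N k r : ℕ} (hr : 1 ≤ r) :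
    ∀ i < N, ∑ j ∈ range k, U g N (k - j) i * U g N r j ≤ U g (k + N) r (k + i) := by
  have step1 : ∀ x < N, U g N r x ≤ U g (k + N) r x := by
    apply comp_le h N
    intro x hx
    rw [U_eq h N r hx]
    have h3 := U_eq h (k + N) r (i := x) (by omega)
    rw [show k + N = N + k by omega, sum_range_add, show N + k = k + N by omega] at h3
    have h4 : ∑ w ∈ range k, g ((x : ℤ) - ((N + w : ℕ) : ℤ)) * U g (k + N) r (N + w) ≤ 0 := by
      apply sum_nonpos
      intro w _
      apply mul_nonpos_of_nonpos_of_nonneg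
      · apply h.nonpos
        omega
      · exact U_nonneg h _ hr _
    linarith
  have step1' : ∀ x, U g N r x ≤ U g (k + N) r x := by
    intro x
    by_cases hx : x < N
    · exact step1 x hx
    · rw [U_out (by omega)]
      exact U_nonneg h _ hr _
  apply comp_le h N
  intro i hi
  have e1 : ∑ m ∈ range N, g ((i : ℤ) - (m : ℤ)) * ∑ j ∈ range k, U g N (k - j) m * U g N r j
      = ∑ j ∈ range k, (- g ((i : ℤ) + ((k - j : ℕ) : ℤ))) * U g N r j := by
    simp only [mul_sum]
    rw [sum_comm]
    apply sum_congr rfl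
    intro j _
    rw [← U_eq h N (k - j) hi, sum_mul]
    apply sum_congr rfl
    intro m _
    ring
  rw [e1]
  have h3 := U_eq h (k + N) r (i := k + i) (by omega)
  rw [sum_range_add] at h3
  have e2 : ∑ m ∈ range N, g (((k + i : ℕ) : ℤ) - ((k + m : ℕ) : ℤ)) * U g (k + N) r (k + m)
      = ∑ m ∈ range N, g ((i : ℤ) - (m : ℤ)) * U g (k + N) r (k + m) := by
    apply sum_congr rfl
    intro m _
    congr 2
    push_cast; ring
  rw [e2] at h3
  have h4 : g (((k + i : ℕ) : ℤ) + (r : ℤ)) ≤ 0 := h.nonpos _ (by omega)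
  have h5 : ∑ j ∈ range k, (- g ((i : ℤ) + ((k - j : ℕ) : ℤ))) * U g N r j
      ≤ - ∑ w ∈ range k, g (((k + i : ℕ) : ℤ) - (w : ℤ)) * U g (k + N) r w := by
    rw [← sum_neg_distrib]
    apply sum_le_sum
    intro j hj
    rw [mem_range] at hj
    have e3 : ((k + i : ℕ) : ℤ) - (j : ℤ) = (i : ℤ) + ((k - j : ℕ) : ℤ) := by omega
    rw [e3]
    have h6 : g ((i : ℤ) + ((k - j : ℕ) : ℤ)) ≤ 0 := h.nonpos _ (by omega)
    have h7 := step1' j
    nlinarith
  linarith

/-- the entries of `T⁻¹ B_k` -/
noncomputable def Y (g : ℤ → ℝ) (N k i j : ℕ) : ℝ :=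
  (if j = i + k then 1 else 0) - (if j < k then U g N (k - j) i else 0)

lemma A_apply (h : Good g φ C) {N k : ℕ} (i j : Fin N) :
    ((T g N)⁻¹ * B g N k) i j = Y g N k i j := by
  have hu := (Matrix.isUnit_iff_isUnit_det _).1 (isUnit_T h N)
  have hS : B g N k = T g N * Matrix.of (fun i j : Fin N => Y g N k i j) := by
    ext i j
    rw [Matrix.mul_apply]
    simp only [T, B, Matrix.of_apply, Y, mul_sub, sum_sub_distrib]
    have hi := i.2
    have hj := j.2
    by_cases hjk : (j : ℕ) < k
    · have e1 : ∑ x : Fin N, g (((i : ℕ) : ℤ) - ((x : ℕ) : ℤ)) *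
          (if (j : ℕ) = (x : ℕ) + k then (1 : ℝ) else 0) = 0 := by
        apply sum_eq_zero
        intro x _
        rw [if_neg (by omega), mul_zero]
      rw [e1]
      simp only [if_pos hjk]
      have := U_eq h N (k - j) hi
      rw [sum_range] at this
      rw [this, zero_sub, neg_neg]
      congr 1
      omega
    · simp only [if_neg hjk, mul_zero, sum_const_zero, sub_zero]
      rw [sum_eq_single (⟨(j : ℕ) - k, by omega⟩ : Fin N)]
      · have e2 : (j : ℕ) = ((⟨(j : ℕ) - k, by omega⟩ : Fin N) : ℕ) + k := by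
          simp only; omega
        rw [if_pos e2, mul_one]
        congr 1
        simp only
        omega
      · intro b _ hb
        have : (j : ℕ) ≠ (b : ℕ) + k := fun h => hb (Fin.ext (by simp only; omega))
        rw [if_neg this, mul_zero]
      · intro h; exact absurd (mem_univ _) h
  rw [hS, ← Matrix.mul_assoc, Matrix.nonsing_inv_mul _ hu, Matrix.one_mul, Matrix.of_apply]

lemma trace_A (h : Good g φ C) {N k : ℕ} (hk1 : 1 ≤ k) :
    ((T g N)⁻¹ * B g N k).trace = - ∑ j ∈ range N, (if j < k then U g N (k - j) j else 0) := by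
  unfold Matrix.trace
  rw [sum_range, ← sum_neg_distrib]
  apply sum_congr rfl
  intro j _
  rw [Matrix.diag_apply, A_apply h]
  unfold Y
  rw [if_neg (by omega)]
  ring

theorem trace1 (h : Good g φ C) (M k : ℕ) (hk : 1 ≤ k) :
    -C ≤ ((T g M)⁻¹ * B g M k).trace ∧ ((T g M)⁻¹ * B g M k).trace ≤ 0 := by
  rw [trace_A h hk]
  constructor
  · have := sum_diag h M k
    linarith
  · have : 0 ≤ ∑ j ∈ range M, (if j < k then U g M (k - j) j else 0) := by
      apply sum_nonneg
      intro j _
      split_ifs with h'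
      · exact U_nonneg h M (by omega) j
      · exact le_rfl
    linarith

/-- one of the two mixed sums -/
lemma cross (h : Good g φ C) (N k l : ℕ) :
    0 ≤ ∑ j ∈ range N, ∑ i ∈ range N, (if j = i + k then (1 : ℝ) else 0) *
        (if i < l then U g N (l - i) j else 0) ∧
    ∑ j ∈ range N, ∑ i ∈ range N, (if j = i + k then (1 : ℝ) else 0) *
        (if i < l then U g N (l - i) j else 0) ≤ C := by
  constructor
  · apply sum_nonneg
    intro j _
    apply sum_nonneg
    intro i _
    apply mul_nonneg
    · split_ifs <;> norm_num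
    · split_ifs with h'
      · exact U_nonneg h N (by omega) j
      · exact le_rfl
  · refine le_trans ?_ (sum_diag h N (k + l))
    apply sum_le_sum
    intro j hj
    rw [mem_range] at hj
    by_cases hkj : k ≤ j
    · rw [sum_eq_single (j - k)]
      · rw [if_pos (by omega), one_mul]
        apply le_of_eq
        by_cases h : j - k < l
        · rw [if_pos h, if_pos (by omega)]
          congr 1
          omega
        · rw [if_neg h, if_neg (by omega)]
      · intro b _ hb
        rw [if_neg (by omega), zero_mul]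
      · intro h
        exact absurd (mem_range.2 (by omega)) h
    · rw [sum_eq_zero]
      · split_ifs with h'
        · exact U_nonneg h N (by omega) j
        · exact le_rfl
      · intro i _
        rw [if_neg (by omega), zero_mul]

/-- the double sum -/
lemma double (h : Good g φ C) (N k l : ℕ) :
    0 ≤ ∑ i ∈ range N, ∑ j ∈ range N, (if j < k then U g N (k - j) i else 0) *
        (if i < l then U g N (l - i) j else 0) ∧
    ∑ i ∈ range N, ∑ j ∈ range N, (if j < k then U g N (k - j) i else 0) *
        (if i < l then U g N (l - i) j else 0) ≤ C := by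
  constructor
  · apply sum_nonneg
    intro i _
    apply sum_nonneg
    intro j _
    apply mul_nonneg
    · split_ifs with h'
      · exact U_nonneg h N (by omega) _
      · exact le_rfl
    · split_ifs with h'
      · exact U_nonneg h N (by omega) _
      · exact le_rfl
  · have hd := sum_diag h (k + N) (k + l)
    rw [sum_range_add] at hd
    have hn : 0 ≤ ∑ x ∈ range k, (if x < k + l then U g (k + N) (k + l - x) x else 0) := by
      apply sum_nonneg
      intro x _
      split_ifs with h'
      · exact U_nonneg h _ (by omega) _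
      · exact le_rfl
    refine le_trans ?_ (le_trans (le_add_of_nonneg_left hn) hd)
    apply sum_le_sum
    intro i hi
    rw [mem_range] at hi
    by_cases hil : i < l
    · rw [if_pos (show k + i < k + l by omega), show k + l - (k + i) = l - i by omega]
      refine le_trans (le_of_eq ?_) (compose h (r := l - i) (by omega) i hi)
      simp only [if_pos hil]
      have e1 : ∑ j ∈ range N, (if j < k then U g N (k - j) i else 0) * U g N (l - i) j
          = ∑ j ∈ range N, (if j < k then U g N (k - j) i * U g N (l - i) j else 0) := by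
        apply sum_congr rfl
        intro j _
        split_ifs <;> simp
      have e2 : ∑ j ∈ range k, U g N (k - j) i * U g N (l - i) j
          = ∑ j ∈ range k, (if j < N then U g N (k - j) i * U g N (l - i) j else 0) := by
        apply sum_congr rfl
        intro j _
        by_cases hj : j < N
        · rw [if_pos hj]
        · rw [if_neg hj, U_out (i := j) (by omega), mul_zero]
      rw [e1, e2, ← sum_filter, ← sum_filter]
      congr 1
      ext j
      simp only [mem_filter, mem_range]
      omega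
    · simp only [if_neg hil, mul_zero, sum_const_zero]
      rw [if_neg (by omega)]

theorem trace2 (h : Good g φ C) (M k l : ℕ) (hk : 1 ≤ k) (hl : 1 ≤ l) :
    -(2 * C) ≤ ((T g M)⁻¹ * B g M k * ((T g M)⁻¹ * B g M l)).trace ∧
      ((T g M)⁻¹ * B g M k * ((T g M)⁻¹ * B g M l)).trace ≤ C := by
  have e : ((T g M)⁻¹ * B g M k * ((T g M)⁻¹ * B g M l)).trace
      = ∑ i ∈ range M, ∑ j ∈ range M, Y g M k i j * Y g M l j i := by
    unfold Matrix.trace
    rw [sum_range]
    apply sum_congr rfl
    intro i _
    rw [Matrix.diag_apply, Matrix.mul_apply, sum_range]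
    apply sum_congr rfl
    intro j _
    rw [A_apply h, A_apply h]
  have e2 : ∑ i ∈ range M, ∑ j ∈ range M, Y g M k i j * Y g M l j i
      = ∑ i ∈ range M, ∑ j ∈ range M, (if j < k then U g M (k - j) i else 0) *
          (if i < l then U g M (l - i) j else 0)
        - ∑ j ∈ range M, ∑ i ∈ range M, (if j = i + k then (1 : ℝ) else 0) *
          (if i < l then U g M (l - i) j else 0)
        - ∑ i ∈ range M, ∑ j ∈ range M, (if i = j + l then (1 : ℝ) else 0) *
          (if j < k then U g M (k - j) i else 0) := by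
    rw [sum_comm (s := range M) (t := range M) (f := fun j i =>
      (if j = i + k then (1 : ℝ) else 0) * (if i < l then U g M (l - i) j else 0))]
    rw [← sum_sub_distrib, ← sum_sub_distrib]
    apply sum_congr rfl
    intro i _
    rw [← sum_sub_distrib, ← sum_sub_distrib]
    apply sum_congr rfl
    intro j _
    unfold Y
    have : (if j = i + k then (1 : ℝ) else 0) * (if i = j + l then (1 : ℝ) else 0) = 0 := by
      by_cases h : j = i + k
      · rw [if_neg (show ¬ i = j + l by omega), mul_zero]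
      · rw [if_neg h, zero_mul]
    linear_combination this
  have c1 := cross h M k l
  have c2 := cross h M l k
  have c3 := double h M k l
  rw [e, e2]
  constructor
  · linarith [c1.2, c2.2, c3.1]
  · linarith [c1.1, c2.1, c3.2]

end Pool.Agent.K4H30.FNA
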