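import Pool.Agent.K4H30.FN.Pred

/-!
The traces of `A_k` and `A_k A_l`.
-/

namespace Pool.Agent.K4H30.FN

open Finset

variable {H : ℝ}

/-- the `N` by `2N` matrix `(0_{N×k}, I_N, 0_{N×(N-k)})` -/
def Pk (N k : ℕ) : Matrix (Fin N) (Fin (2 * N)) ℝ :=
  Matrix.of fun i m => if (m : ℕ) = (i : ℕ) + k then 1 else 0

/-- `A_k = Σ_{1,N}⁻¹ P_k Σ_{1,2N} P_0ᵀ` -/
noncomputable def A (H : ℝ) (N k : ℕ) : Matrix (Fin N) (Fin N) ℝ :=
  (Sig H N)⁻¹ * (Pk N k * Sig H (2 * N) * (Pk N 0).transpose)

lemma shift_apply {N k : ℕ} (hk : k ≤ N) (i j : Fin N) :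
    (Pk N k * Sig H (2 * N) * (Pk N 0).transpose) i j
      = gam H (((i : ℕ) : ℤ) - ((j : ℕ) : ℤ) + (k : ℤ)) := by
  have hi := i.2
  have hj := j.2
  rw [Matrix.mul_apply]
  have e1 : ∀ m : Fin (2 * N), (Pk N k * Sig H (2 * N)) i m
      = gam H (((i : ℕ) : ℤ) + (k : ℤ) - ((m : ℕ) : ℤ)) := by
    intro m
    rw [Matrix.mul_apply, sum_eq_single (⟨(i : ℕ) + k, by omega⟩ : Fin (2 * N))]
    · simp [Pk, Sig]
    · intro b _ hb
      have : (b : ℕ) ≠ (i : ℕ) + k := fun h => hb (Fin.ext h)
      simp [Pk, this]
    · intro h; exact absurd (mem_univ _) h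
  rw [sum_eq_single (⟨(j : ℕ), by omega⟩ : Fin (2 * N))]
  · rw [e1]
    simp only [Pk, Matrix.transpose_apply, Matrix.of_apply, add_zero, if_true, mul_one]
    congr 1; ring
  · intro b _ hb
    have : (b : ℕ) ≠ (j : ℕ) := fun h => hb (Fin.ext h)
    simp [Pk, this]
  · intro h; exact absurd (mem_univ _) h

/-- the entries of `A_k` -/
noncomputable def Y (H : ℝ) (N k i j : ℕ) : ℝ :=
  (if j = i + k then 1 else 0) - (if j < k then U H N (k - j) i else 0)

lemma A_apply (h0 : 0 < H) (h1 : H ≤ 1 / 2) {N k : ℕ} (hk : k ≤ N) (i j : Fin N) :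
    A H N k i j = Y H N k i j := by
  have hu := (Matrix.isUnit_iff_isUnit_det _).1 (sig_isUnit h0 h1 N)
  have hS : Pk N k * Sig H (2 * N) * (Pk N 0).transpose
      = Sig H N * Matrix.of (fun i j : Fin N => Y H N k i j) := by
    ext i j
    rw [shift_apply hk, Matrix.mul_apply]
    simp only [Sig, Matrix.of_apply, Y, mul_sub, sum_sub_distrib]
    have hi := i.2
    have hj := j.2
    by_cases hjk : (j : ℕ) < k
    · have e1 : ∑ x : Fin N, gam H (((i : ℕ) : ℤ) - ((x : ℕ) : ℤ)) *
          (if (j : ℕ) = (x : ℕ) + k then (1 : ℝ) else 0) = 0 := by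
        apply sum_eq_zero
        intro x _
        rw [if_neg (by omega), mul_zero]
      rw [e1]
      simp only [if_pos hjk]
      have := U_eq h0 h1 N (k - j) hi
      rw [sum_range] at this
      rw [this, zero_sub, neg_neg]
      congr 1
      omega
    · simp only [if_neg hjk, mul_zero, sum_const_zero, sub_zero]
      rw [sum_eq_single (⟨(j : ℕ) - k, by omega⟩ : Fin N)]
      · have e2 : (j : ℕ) = ((⟨(j : ℕ) - k, by omega⟩ : Fin N) : ℕ) + k := by
          simp only; omega
        rw [if_pos e2, mul_one]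
        congr 1
        simp only
        omega
      · intro b _ hb
        have : (j : ℕ) ≠ (b : ℕ) + k := fun h => hb (Fin.ext (by simp only; omega))
        rw [if_neg this, mul_zero]
      · intro h; exact absurd (mem_univ _) h
  unfold A
  rw [hS, ← Matrix.mul_assoc, Matrix.nonsing_inv_mul _ hu, Matrix.one_mul, Matrix.of_apply]

lemma trace_A (h0 : 0 < H) (h1 : H ≤ 1 / 2) {N k : ℕ} (hk1 : 1 ≤ k) (hk : k ≤ N) :
    (A H N k).trace = - ∑ j ∈ range N, (if j < k then U H N (k - j) j else 0) := by
  unfold Matrix.trace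
  rw [sum_range, ← sum_neg_distrib]
  apply sum_congr rfl
  intro j _
  rw [Matrix.diag_apply, A_apply h0 h1 hk]
  unfold Y
  rw [if_neg (by omega)]
  ring

/-- one of the two mixed sums -/
lemma cross (h0 : 0 < H) (h1 : H ≤ 1 / 2) (N k l : ℕ) :
    0 ≤ ∑ j ∈ range N, ∑ i ∈ range N, (if j = i + k then (1 : ℝ) else 0) *
        (if i < l then U H N (l - i) j else 0) ∧
    ∑ j ∈ range N, ∑ i ∈ range N, (if j = i + k then (1 : ℝ) else 0) *
        (if i < l then U H N (l - i) j else 0) ≤ 1 := by
  constructor
  · apply sum_nonneg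
    intro j _
    apply sum_nonneg
    intro i _
    apply mul_nonneg
    · split_ifs <;> norm_num
    · split_ifs with h
      · exact U_nonneg h0 h1 N (by omega) j
      · exact le_rfl
  · refine le_trans ?_ (sum_diag h0 h1 N (k + l))
    apply sum_le_sum
    intro j hj
    rw [mem_range] at hj
    by_cases hkj : k ≤ j
    · rw [sum_eq_single (j - k)]
      · rw [if_pos (by omega), one_mul]
        apply le_of_eq
        by_cases h : j - k < l
        · rw [if_pos h, if_pos (by omega)]
          congr 1
          omega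
        · rw [if_neg h, if_neg (by omega)]
      · intro b _ hb
        rw [if_neg (by omega), zero_mul]
      · intro h
        exact absurd (mem_range.2 (by omega)) h
    · rw [sum_eq_zero]
      · split_ifs with h
        · exact U_nonneg h0 h1 N (by omega) j
        · exact le_rfl
      · intro i _
        rw [if_neg (by omega), zero_mul]

/-- the double sum -/
lemma double (h0 : 0 < H) (h1 : H ≤ 1 / 2) {N k : ℕ} (hk : k ≤ N) (l : ℕ) :
    0 ≤ ∑ i ∈ range N, ∑ j ∈ range N, (if j < k then U H N (k - j) i else 0) *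
        (if i < l then U H N (l - i) j else 0) ∧
    ∑ i ∈ range N, ∑ j ∈ range N, (if j < k then U H N (k - j) i else 0) *
        (if i < l then U H N (l - i) j else 0) ≤ 1 := by
  constructor
  · apply sum_nonneg
    intro i _
    apply sum_nonneg
    intro j _
    apply mul_nonneg
    · split_ifs with h
      · exact U_nonneg h0 h1 N (by omega) _
      · exact le_rfl
    · split_ifs with h
      · exact U_nonneg h0 h1 N (by omega) _
      · exact le_rfl
  · have hd := sum_diag h0 h1 (k + N) (k + l)
    rw [sum_range_add] at hd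
    have hn : 0 ≤ ∑ x ∈ range k, (if x < k + l then U H (k + N) (k + l - x) x else 0) := by
      apply sum_nonneg
      intro x _
      split_ifs with h
      · exact U_nonneg h0 h1 _ (by omega) _
      · exact le_rfl
    refine le_trans ?_ (le_trans (le_add_of_nonneg_left hn) hd)
    apply sum_le_sum
    intro i hi
    rw [mem_range] at hi
    by_cases hil : i < l
    · rw [if_pos (show k + i < k + l by omega), show k + l - (k + i) = l - i by omega]
      refine le_trans (le_of_eq ?_) (compose h0 h1 hk (r := l - i) (by omega) i hi)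
      simp only [if_pos hil]
      have : ∑ j ∈ range N, (if j < k then U H N (k - j) i else 0) * U H N (l - i) j
          = ∑ j ∈ range N, (if j < k then U H N (k - j) i * U H N (l - i) j else 0) := by
        apply sum_congr rfl
        intro j _
        split_ifs <;> simp
      rw [this, ← sum_filter]
      congr 1
      ext j
      simp only [mem_filter, mem_range]
      omega
    · simp only [if_neg hil, mul_zero, sum_const_zero]
      rw [if_neg (by omega)]

lemma trace_mul (h0 : 0 < H) (h1 : H ≤ 1 / 2) {N k l : ℕ} (hk1 : 1 ≤ k) (hk : k ≤ N)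
    (hl1 : 1 ≤ l) (hl : l ≤ N) :
    -2 ≤ (A H N k * A H N l).trace ∧ (A H N k * A H N l).trace ≤ 1 := by
  have e : (A H N k * A H N l).trace
      = ∑ i ∈ range N, ∑ j ∈ range N, Y H N k i j * Y H N l j i := by
    unfold Matrix.trace
    rw [sum_range]
    apply sum_congr rfl
    intro i _
    rw [Matrix.diag_apply, Matrix.mul_apply, sum_range]
    apply sum_congr rfl
    intro j _
    rw [A_apply h0 h1 hk, A_apply h0 h1 hl]
  have e2 : ∑ i ∈ range N, ∑ j ∈ range N, Y H N k i j * Y H N l j i
      = ∑ i ∈ range N, ∑ j ∈ range N, (if j < k then U H N (k - j) i else 0) *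
          (if i < l then U H N (l - i) j else 0)
        - ∑ j ∈ range N, ∑ i ∈ range N, (if j = i + k then (1 : ℝ) else 0) *
          (if i < l then U H N (l - i) j else 0)
        - ∑ i ∈ range N, ∑ j ∈ range N, (if i = j + l then (1 : ℝ) else 0) *
          (if j < k then U H N (k - j) i else 0) := by
    rw [sum_comm (s := range N) (t := range N) (f := fun j i =>
      (if j = i + k then (1 : ℝ) else 0) * (if i < l then U H N (l - i) j else 0))]
    rw [← sum_sub_distrib, ← sum_sub_distrib]
    apply sum_congr rfl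
    intro i _
    rw [← sum_sub_distrib, ← sum_sub_distrib]
    apply sum_congr rfl
    intro j _
    unfold Y
    have : (if j = i + k then (1 : ℝ) else 0) * (if i = j + l then (1 : ℝ) else 0) = 0 := by
      by_cases h : j = i + k
      · rw [if_neg (show ¬ i = j + l by omega), mul_zero]
      · rw [if_neg h, zero_mul]
    linear_combination this
  have c1 := cross h0 h1 N k l
  have c2 := cross h0 h1 N l k
  have c3 := double h0 h1 hk l
  rw [e, e2]
  constructor
  · linarith [c1.2, c2.2, c3.1]
  · linarith [c1.1, c2.1, c3.2]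

end Pool.Agent.K4H30.FN
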