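import Mathlib

/-!
Fractional Gaussian noise with Hurst parameter at most one half: elementary estimates for the
autocovariance, and the comparison principle for its Toeplitz sections.
-/

namespace Pool.Agent.K4H30.FN

open Finset

/-- autocovariance of the unit increments of fractional Brownian motion -/
noncomputable def gam (H : ℝ) (j : ℤ) : ℝ :=
  (|(j : ℝ) + 1| ^ (2 * H) - 2 * |(j : ℝ)| ^ (2 * H) + |(j : ℝ) - 1| ^ (2 * H)) / 2

variable {H : ℝ}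

lemma gam_neg (j : ℤ) : gam H (-j) = gam H j := by
  unfold gam
  have h1 : |((-j : ℤ) : ℝ) + 1| = |(j : ℝ) - 1| := by
    rw [← abs_neg]; congr 1; push_cast; ring
  have h2 : |((-j : ℤ) : ℝ) - 1| = |(j : ℝ) + 1| := by
    rw [← abs_neg]; congr 1; push_cast; ring
  have h3 : |((-j : ℤ) : ℝ)| = |(j : ℝ)| := by
    rw [← abs_neg]; congr 1; push_cast; ring
  rw [h1, h2, h3]; ring

lemma gam_succ (n : ℕ) : gam H ((n : ℤ) + 1)
    = (((n : ℝ) + 2) ^ (2 * H) - 2 * ((n : ℝ) + 1) ^ (2 * H) + (n : ℝ) ^ (2 * H)) / 2 := by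
  unfold gam
  have h0 : (0 : ℝ) ≤ n := Nat.cast_nonneg n
  have h1 : |(((n : ℤ) + 1 : ℤ) : ℝ) + 1| = (n : ℝ) + 2 := by
    push_cast; rw [abs_of_nonneg (by linarith)]; ring
  have h2 : |(((n : ℤ) + 1 : ℤ) : ℝ) - 1| = (n : ℝ) := by
    push_cast; rw [abs_of_nonneg (by linarith)]; ring
  have h3 : |(((n : ℤ) + 1 : ℤ) : ℝ)| = (n : ℝ) + 1 := by
    push_cast; rw [abs_of_nonneg (by linarith)]
  rw [h1, h2, h3]

lemma gam_succ_nonpos (h0 : 0 < H) (h1 : H ≤ 1 / 2) (n : ℕ) : gam H ((n : ℤ) + 1) ≤ 0 := by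
  rw [gam_succ]
  have hn : (0 : ℝ) ≤ n := Nat.cast_nonneg n
  have hc := (Real.concaveOn_rpow (p := 2 * H) (by linarith) (by linarith)).2
    (show (n : ℝ) + 2 ∈ Set.Ici (0 : ℝ) by simp; linarith)
    (show (n : ℝ) ∈ Set.Ici (0 : ℝ) by simp)
    (show (0 : ℝ) ≤ 1 / 2 by norm_num) (show (0 : ℝ) ≤ 1 / 2 by norm_num) (by norm_num)
  simp only [smul_eq_mul] at hc
  have he : (1 / 2 : ℝ) * ((n : ℝ) + 2) + 1 / 2 * (n : ℝ) = (n : ℝ) + 1 := by ring
  rw [he] at hc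
  linarith

lemma gam_nonpos (h0 : 0 < H) (h1 : H ≤ 1 / 2) {j : ℤ} (hj : j ≠ 0) : gam H j ≤ 0 := by
  rcases lt_or_gt_of_ne hj with h | h
  · rw [← gam_neg]
    obtain ⟨n, hn⟩ := Int.eq_ofNat_of_zero_le (show (0 : ℤ) ≤ -j - 1 by omega)
    have : -j = (n : ℤ) + 1 := by omega
    rw [this]; exact gam_succ_nonpos h0 h1 n
  · obtain ⟨n, hn⟩ := Int.eq_ofNat_of_zero_le (show (0 : ℤ) ≤ j - 1 by omega)
    have : j = (n : ℤ) + 1 := by omega
    rw [this]; exact gam_succ_nonpos h0 h1 n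

/-- increment of `n ^ (2H)` -/
noncomputable def rho (H : ℝ) (n : ℕ) : ℝ := ((n : ℝ) + 1) ^ (2 * H) - (n : ℝ) ^ (2 * H)

lemma rho_pos (h0 : 0 < H) (n : ℕ) : 0 < rho H n := by
  unfold rho
  have := Real.rpow_lt_rpow (Nat.cast_nonneg n) (show (n : ℝ) < (n : ℝ) + 1 by linarith)
    (show 0 < 2 * H by linarith)
  linarith

/-- telescoping primitive of the autocovariance -/
noncomputable def gg (H : ℝ) (j : ℤ) : ℝ := |(j : ℝ) + 1| ^ (2 * H) - |(j : ℝ)| ^ (2 * H)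

lemma gam_eq_gg (j : ℤ) : gam H j = (gg H j - gg H (j - 1)) / 2 := by
  unfold gam gg
  push_cast
  rw [sub_add_cancel]
  ring

lemma sum_gam (i : ℤ) (M : ℕ) :
    ∑ m ∈ range M, gam H (i - (m : ℤ)) = (gg H i - gg H (i - (M : ℤ))) / 2 := by
  induction M with
  | zero => simp
  | succ M ih =>
    rw [sum_range_succ, ih, gam_eq_gg]
    have : i - ((M + 1 : ℕ) : ℤ) = i - (M : ℤ) - 1 := by push_cast; ring
    rw [this]; ring

lemma row_sum (i n : ℕ) :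
    ∑ m ∈ range (i + n + 1), gam H ((i : ℤ) - (m : ℤ)) = (rho H i + rho H n) / 2 := by
  rw [sum_gam]
  have h1 : gg H (i : ℤ) = rho H i := by
    unfold gg rho
    have hi : (0 : ℝ) ≤ i := Nat.cast_nonneg i
    push_cast
    rw [abs_of_nonneg (by linarith), abs_of_nonneg hi]
  have h2 : gg H ((i : ℤ) - ((i + n + 1 : ℕ) : ℤ)) = - rho H n := by
    unfold gg rho
    have hn : (0 : ℝ) ≤ n := Nat.cast_nonneg n
    have e1 : (((i : ℤ) - ((i + n + 1 : ℕ) : ℤ) : ℤ) : ℝ) = - ((n : ℝ) + 1) := by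
      push_cast; ring
    rw [e1]
    have e2 : |-((n : ℝ) + 1) + 1| = (n : ℝ) := by
      rw [show -((n : ℝ) + 1) + 1 = - (n : ℝ) by ring, abs_neg, abs_of_nonneg hn]
    have e3 : |-((n : ℝ) + 1)| = (n : ℝ) + 1 := by
      rw [abs_neg, abs_of_nonneg (by linarith)]
    rw [e2, e3]; ring
  rw [h1, h2]; ring

lemma row_sum_pos (h0 : 0 < H) {i M : ℕ} (hi : i < M) :
    0 < ∑ m ∈ range M, gam H ((i : ℤ) - (m : ℤ)) := by
  obtain ⟨n, rfl⟩ : ∃ n, M = i + n + 1 := ⟨M - i - 1, by omega⟩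
  rw [row_sum]
  have := rho_pos h0 i
  have := rho_pos h0 n
  linarith

lemma row_sum_ge (h0 : 0 < H) {i M : ℕ} (hi : i < M) :
    rho H i / 2 ≤ ∑ m ∈ range M, gam H ((i : ℤ) - (m : ℤ)) := by
  obtain ⟨n, rfl⟩ : ∃ n, M = i + n + 1 := ⟨M - i - 1, by omega⟩
  rw [row_sum]
  have := rho_pos h0 n
  linarith

/-- monotonicity of `(1 + 1/n)^n`, in logarithmic form -/
lemma log_ineq (n : ℕ) (hn : 1 ≤ n) :
    0 ≤ ((n : ℝ) + 1) * (Real.log ((n : ℝ) + 2) - Real.log ((n : ℝ) + 1))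
      + (n : ℝ) * (Real.log (n : ℝ) - Real.log ((n : ℝ) + 1)) := by
  have hn' : (1 : ℝ) ≤ n := by exact_mod_cast hn
  have hx : (0 : ℝ) < (n : ℝ) + 1 := by linarith
  have hy : (0 : ℝ) < (n : ℝ) := by linarith
  have hz : (0 : ℝ) < (n : ℝ) + 2 := by linarith
  have hb := one_add_mul_le_pow (a := -(1 / ((n : ℝ) + 1) ^ 2)) (by
    have : 1 / ((n : ℝ) + 1) ^ 2 ≤ 1 := by
      rw [div_le_one (by positivity)]
      nlinarith
    linarith) (n + 1)
  have e1 : 1 + ((n + 1 : ℕ) : ℝ) * (-(1 / ((n : ℝ) + 1) ^ 2)) = (n : ℝ) / ((n : ℝ) + 1) := by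
    push_cast
    field_simp
    ring
  have e2 : 1 + (-(1 / ((n : ℝ) + 1) ^ 2)) = (n : ℝ) * ((n : ℝ) + 2) / ((n : ℝ) + 1) ^ 2 := by
    field_simp
    ring
  rw [e1, e2] at hb
  have hl := Real.log_le_log (by positivity) hb
  rw [Real.log_pow, Real.log_div (by positivity) (by positivity),
    Real.log_div (by positivity) (by positivity), Real.log_mul (by positivity) (by positivity),
    Real.log_pow] at hl
  push_cast at hl
  nlinarith [hl]

lemma rpow_lower (a : ℝ) {x y : ℝ} (hx : 0 < x) (hy : 0 < y) :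
    x ^ a * (1 + a * (Real.log y - Real.log x)) ≤ y ^ a := by
  have h : y ^ a = x ^ a * Real.exp (a * (Real.log y - Real.log x)) := by
    rw [Real.rpow_def_of_pos hx, Real.rpow_def_of_pos hy, ← Real.exp_add]
    congr 1; ring
  rw [h]
  have := Real.add_one_le_exp (a * (Real.log y - Real.log x))
  have hp : 0 < x ^ a := Real.rpow_pos_of_pos hx a
  nlinarith

/-- the key inequality `n p(n) ≤ (n^(2H) - (n-1)^(2H)) / 2` -/
lemma key (h0 : 0 < H) (n : ℕ) : ((n : ℝ) + 1) * (- gam H ((n : ℤ) + 1)) ≤ rho H n / 2 := by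
  rw [gam_succ]
  unfold rho
  rcases Nat.eq_zero_or_pos n with rfl | hn
  · have h2 : (0 : ℝ) ^ (2 * H) = 0 := Real.zero_rpow (by linarith)
    have h3 : (1 : ℝ) ≤ (2 : ℝ) ^ (2 * H) := Real.one_le_rpow (by norm_num) (by linarith)
    simp only [Nat.cast_zero, zero_add, Real.one_rpow, h2]
    linarith
  · have hn' : (1 : ℝ) ≤ n := by exact_mod_cast hn
    have hx : (0 : ℝ) < (n : ℝ) + 1 := by linarith
    have hy : (0 : ℝ) < (n : ℝ) := by linarith
    have hz : (0 : ℝ) < (n : ℝ) + 2 := by linarith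
    have a1 := rpow_lower (2 * H) hx hz
    have a2 := rpow_lower (2 * H) hx hy
    have a3 := log_ineq n hn
    have hp : 0 < ((n : ℝ) + 1) ^ (2 * H) := Real.rpow_pos_of_pos hx _
    set X := ((n : ℝ) + 1) ^ (2 * H) with hX
    set L2 := Real.log ((n : ℝ) + 2) - Real.log ((n : ℝ) + 1) with hL2
    set L0 := Real.log (n : ℝ) - Real.log ((n : ℝ) + 1) with hL0
    have b1 : ((n : ℝ) + 1) * (X * (1 + 2 * H * L2)) ≤ ((n : ℝ) + 1) * ((n : ℝ) + 2) ^ (2 * H) :=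
      mul_le_mul_of_nonneg_left a1 hx.le
    have b2 : (n : ℝ) * (X * (1 + 2 * H * L0)) ≤ (n : ℝ) * (n : ℝ) ^ (2 * H) :=
      mul_le_mul_of_nonneg_left a2 hy.le
    have b3 : 0 ≤ X * (2 * H) * (((n : ℝ) + 1) * L2 + (n : ℝ) * L0) := by
      apply mul_nonneg _ a3
      positivity
    nlinarith [b1, b2, b3]

/-- comparison principle -/
lemma comp_nonneg (h0 : 0 < H) (h1 : H ≤ 1 / 2) (N : ℕ) (x : ℕ → ℝ)
    (h : ∀ i < N, 0 ≤ ∑ m ∈ range N, gam H ((i : ℤ) - (m : ℤ)) * x m) :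
    ∀ i < N, 0 ≤ x i := by
  intro i hi
  have hne : (range N).Nonempty := ⟨i, mem_range.2 hi⟩
  obtain ⟨i0, hi0, hmin⟩ := exists_min_image (range N) x hne
  rw [mem_range] at hi0
  have hx0 : 0 ≤ x i0 := by
    by_contra hneg
    push Not at hneg
    have hle : ∑ m ∈ range N, gam H ((i0 : ℤ) - (m : ℤ)) * x m
        ≤ ∑ m ∈ range N, gam H ((i0 : ℤ) - (m : ℤ)) * x i0 := by
      apply sum_le_sum
      intro m hm
      by_cases hmi : m = i0
      · rw [hmi]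
      · have hg : gam H ((i0 : ℤ) - (m : ℤ)) ≤ 0 := gam_nonpos h0 h1 (by omega)
        have := hmin m hm
        nlinarith
    rw [← sum_mul] at hle
    have hp := row_sum_pos h0 hi0
    have := h i0 hi0
    nlinarith
  exact hx0.trans (hmin i (mem_range.2 hi))

lemma comp_le (h0 : 0 < H) (h1 : H ≤ 1 / 2) (N : ℕ) (x y : ℕ → ℝ)
    (h : ∀ i < N, ∑ m ∈ range N, gam H ((i : ℤ) - (m : ℤ)) * x m
      ≤ ∑ m ∈ range N, gam H ((i : ℤ) - (m : ℤ)) * y m) :
    ∀ i < N, x i ≤ y i := by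
  intro i hi
  have := comp_nonneg h0 h1 N (fun m => y m - x m) (by
    intro i hi
    have := h i hi
    simp only [mul_sub, sum_sub_distrib]
    linarith) i hi
  linarith

end Pool.Agent.K4H30.FN
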