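import Pool.Agent.K4H30.FN.Base
import Pool.Agent.K4H30.FN.Abs

/-!
For `1/2 < H < 1` the differences of fractional Gaussian noise have an autocovariance `del H`
which satisfies the hypotheses `Good` with constant `3`.
-/

namespace Pool.Agent.K4H30.FN

open Finset

variable {H : ℝ}

/-- autocovariance of the differences of the unit increments -/
noncomputable def del (H : ℝ) (j : ℤ) : ℝ := 2 * gam H j - gam H (j + 1) - gam H (j - 1)

/-- decrement of the autocovariance -/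
noncomputable def phi (H : ℝ) (n : ℕ) : ℝ := gam H n - gam H (n + 1)

/-- telescoping primitive -/
noncomputable def psi (H : ℝ) (j : ℤ) : ℝ := gam H j - gam H (j + 1)

lemma del_eq_psi (j : ℤ) : del H j = psi H j - psi H (j - 1) := by
  unfold del psi
  rw [sub_add_cancel]
  ring

lemma sum_del (i : ℤ) (M : ℕ) :
    ∑ m ∈ range M, del H (i - (m : ℤ)) = psi H i - psi H (i - (M : ℤ)) := by
  induction M with
  | zero => simp
  | succ M ih =>
    rw [sum_range_succ, ih, del_eq_psi]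
    have : i - ((M + 1 : ℕ) : ℤ) = i - (M : ℤ) - 1 := by push_cast; ring
    rw [this]; ring

lemma del_row (i n : ℕ) :
    ∑ m ∈ range (i + n + 1), del H ((i : ℤ) - (m : ℤ)) = phi H i + phi H n := by
  rw [sum_del]
  have h2 : psi H ((i : ℤ) - ((i + n + 1 : ℕ) : ℤ)) = - phi H n := by
    unfold psi phi
    have e1 : (i : ℤ) - ((i + n + 1 : ℕ) : ℤ) = -((n : ℤ) + 1) := by push_cast; ring
    have e2 : (i : ℤ) - ((i + n + 1 : ℕ) : ℤ) + 1 = -(n : ℤ) := by push_cast; ring
    rw [e2, e1, gam_neg, gam_neg]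
    ring
  rw [h2]
  unfold psi phi
  ring

/-- strict concavity -/
lemma d2_neg {q : ℝ} (h0 : 0 < q) (h1 : q < 1) {x : ℝ} (hx : 0 ≤ x) :
    (x + 2) ^ q - 2 * (x + 1) ^ q + x ^ q < 0 := by
  have hc := (Real.strictConcaveOn_rpow h0 h1).2
    (show x + 2 ∈ Set.Ici (0 : ℝ) by simp; linarith)
    (show x ∈ Set.Ici (0 : ℝ) by simpa using hx) (by linarith)
    (show (0 : ℝ) < 1 / 2 by norm_num) (show (0 : ℝ) < 1 / 2 by norm_num) (by norm_num)
  simp only [smul_eq_mul] at hc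
  have he : (1 / 2 : ℝ) * (x + 2) + 1 / 2 * x = x + 1 := by ring
  rw [he] at hc
  linarith

/-- convexity for negative exponents -/
lemma d2_nonneg {r : ℝ} (hr : r ≤ 0) {x : ℝ} (hx : 0 < x) :
    0 ≤ (x + 2) ^ r - 2 * (x + 1) ^ r + x ^ r := by
  have h1 : (x + 1) ^ r ≤ (x + 2) ^ (r / 2) * x ^ (r / 2) := by
    rw [← Real.mul_rpow (by linarith) hx.le]
    have e : (x + 1) ^ r = ((x + 1) ^ 2) ^ (r / 2) := by
      rw [← Real.rpow_natCast, ← Real.rpow_mul (by linarith)]
      congr 1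
      push_cast
      ring
    rw [e]
    apply Real.rpow_le_rpow_of_nonpos (by positivity) (by nlinarith) (by linarith)
  have e1 : (x + 2) ^ r = ((x + 2) ^ (r / 2)) ^ 2 := by
    rw [← Real.rpow_natCast, ← Real.rpow_mul (by linarith)]
    congr 1
    push_cast
    ring
  have e2 : x ^ r = (x ^ (r / 2)) ^ 2 := by
    rw [← Real.rpow_natCast, ← Real.rpow_mul hx.le]
    congr 1
    push_cast
    ring
  rw [e1, e2]
  nlinarith [sq_nonneg ((x + 2) ^ (r / 2) - x ^ (r / 2))]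

lemma hasDeriv_shift (c p : ℝ) {x : ℝ} (h : x + c ≠ 0 ∨ 1 ≤ p) :
    HasDerivAt (fun y : ℝ => (y + c) ^ p) (p * (x + c) ^ (p - 1)) x :=
  (Real.hasDerivAt_rpow_const (x := x + c) (p := p) h).comp_add_const x c

/-- the second difference of `x^q`, `0 < q < 1`, is nondecreasing -/
lemma d3_nonneg {q : ℝ} (h0 : 0 < q) (h1 : q < 1) {x : ℝ} (hx : 0 ≤ x) :
    0 ≤ (x + 3) ^ q - 3 * (x + 2) ^ q + 3 * (x + 1) ^ q - x ^ q := by
  have hm : MonotoneOn (fun y : ℝ => (y + 2) ^ q - 2 * (y + 1) ^ q + (y + 0) ^ q)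
      (Set.Ici 0) := by
    have hd : ∀ y : ℝ, 0 < y → HasDerivAt
        (fun y : ℝ => (y + 2) ^ q - 2 * (y + 1) ^ q + (y + 0) ^ q)
        (q * (y + 2) ^ (q - 1) - 2 * (q * (y + 1) ^ (q - 1)) + q * (y + 0) ^ (q - 1)) y := by
      intro y hy
      exact ((hasDeriv_shift 2 q (Or.inl (by linarith))).sub
        ((hasDeriv_shift 1 q (Or.inl (by linarith))).const_mul 2)).add
        (hasDeriv_shift 0 q (Or.inl (by linarith)))
    apply monotoneOn_of_deriv_nonneg (convex_Ici 0)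
    · apply ContinuousOn.add
      · apply ContinuousOn.sub
        · exact (ContinuousOn.rpow_const (by fun_prop) (fun y _ => Or.inr h0.le))
        · exact continuousOn_const.mul
            (ContinuousOn.rpow_const (by fun_prop) (fun y _ => Or.inr h0.le))
      · exact (ContinuousOn.rpow_const (by fun_prop) (fun y _ => Or.inr h0.le))
    · intro y hy
      rw [interior_Ici] at hy
      exact (hd y hy).differentiableAt.differentiableWithinAt
    · intro y hy
      rw [interior_Ici] at hy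
      rw [(hd y hy).deriv]
      have := d2_nonneg (r := q - 1) (by linarith) (x := y) hy
      have h3 : 0 ≤ q * ((y + 2) ^ (q - 1) - 2 * (y + 1) ^ (q - 1) + y ^ (q - 1)) :=
        mul_nonneg h0.le this
      rw [add_zero]
      linarith
  have := hm (show x ∈ Set.Ici (0 : ℝ) from hx) (show x + 1 ∈ Set.Ici (0 : ℝ) by
    simp; linarith) (by linarith)
  simp only [add_zero] at this
  rw [show x + 1 + 2 = x + 3 by ring, show x + 1 + 1 = x + 2 by ring] at this
  linarith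

/-- the third difference of `x^s`, `1 < s < 2`, is negative -/
lemma d3_neg {s : ℝ} (h0 : 1 < s) (h1 : s < 2) {x : ℝ} (hx : 0 ≤ x) :
    (x + 3) ^ s - 3 * (x + 2) ^ s + 3 * (x + 1) ^ s - x ^ s < 0 := by
  have hm : StrictAntiOn (fun y : ℝ => (y + 2) ^ s - 2 * (y + 1) ^ s + (y + 0) ^ s)
      (Set.Ici 0) := by
    have hd : ∀ y : ℝ, 0 ≤ y → HasDerivAt
        (fun y : ℝ => (y + 2) ^ s - 2 * (y + 1) ^ s + (y + 0) ^ s)
        (s * (y + 2) ^ (s - 1) - 2 * (s * (y + 1) ^ (s - 1)) + s * (y + 0) ^ (s - 1)) y := by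
      intro y hy
      exact ((hasDeriv_shift 2 s (Or.inr h0.le)).sub
        ((hasDeriv_shift 1 s (Or.inr h0.le)).const_mul 2)).add
        (hasDeriv_shift 0 s (Or.inr h0.le))
    apply strictAntiOn_of_deriv_neg (convex_Ici 0)
    · intro y hy
      exact (hd y hy).continuousAt.continuousWithinAt
    · intro y hy
      rw [interior_Ici] at hy
      rw [(hd y (le_of_lt hy)).deriv]
      have := d2_neg (q := s - 1) (by linarith) (by linarith) (x := y) (le_of_lt hy)
      have h3 : s * ((y + 2) ^ (s - 1) - 2 * (y + 1) ^ (s - 1) + y ^ (s - 1)) < 0 :=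
        mul_neg_of_pos_of_neg (by linarith) this
      rw [add_zero]
      linarith
  have := hm (show x ∈ Set.Ici (0 : ℝ) from hx) (show x + 1 ∈ Set.Ici (0 : ℝ) by
    simp; linarith) (by linarith)
  simp only [add_zero] at this
  rw [show x + 1 + 2 = x + 3 by ring, show x + 1 + 1 = x + 2 by ring] at this
  linarith

/-- the fourth difference of `x^s`, `1 < s < 2`, is nonnegative -/
lemma d4_nonneg {s : ℝ} (h0 : 1 < s) (h1 : s < 2) {x : ℝ} (hx : 0 ≤ x) :
    0 ≤ (x + 4) ^ s - 4 * (x + 3) ^ s + 6 * (x + 2) ^ s - 4 * (x + 1) ^ s + x ^ s := by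
  have hm : MonotoneOn (fun y : ℝ => (y + 3) ^ s - 3 * (y + 2) ^ s + 3 * (y + 1) ^ s
      - (y + 0) ^ s) (Set.Ici 0) := by
    have hd : ∀ y : ℝ, 0 ≤ y → HasDerivAt
        (fun y : ℝ => (y + 3) ^ s - 3 * (y + 2) ^ s + 3 * (y + 1) ^ s - (y + 0) ^ s)
        (s * (y + 3) ^ (s - 1) - 3 * (s * (y + 2) ^ (s - 1)) + 3 * (s * (y + 1) ^ (s - 1))
          - s * (y + 0) ^ (s - 1)) y := by
      intro y hy
      exact (((hasDeriv_shift 3 s (Or.inr h0.le)).sub
        ((hasDeriv_shift 2 s (Or.inr h0.le)).const_mul 3)).add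
        ((hasDeriv_shift 1 s (Or.inr h0.le)).const_mul 3)).sub
        (hasDeriv_shift 0 s (Or.inr h0.le))
    apply monotoneOn_of_deriv_nonneg (convex_Ici 0)
    · intro y hy
      exact (hd y hy).continuousAt.continuousWithinAt
    · intro y hy
      rw [interior_Ici] at hy
      exact (hd y (le_of_lt hy)).differentiableAt.differentiableWithinAt
    · intro y hy
      rw [interior_Ici] at hy
      rw [(hd y (le_of_lt hy)).deriv]
      have := d3_nonneg (q := s - 1) (by linarith) (by linarith) (x := y) (le_of_lt hy)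
      have h3 : 0 ≤ s * ((y + 3) ^ (s - 1) - 3 * (y + 2) ^ (s - 1) + 3 * (y + 1) ^ (s - 1)
          - y ^ (s - 1)) := mul_nonneg (by linarith) this
      rw [add_zero]
      linarith
  have := hm (show x ∈ Set.Ici (0 : ℝ) from hx) (show x + 1 ∈ Set.Ici (0 : ℝ) by
    simp; linarith) (by linarith)
  simp only [add_zero] at this
  rw [show x + 1 + 3 = x + 4 by ring, show x + 1 + 2 = x + 3 by ring,
    show x + 1 + 1 = x + 2 by ring] at this
  linarith

/-- nonnegative third derivative gives nonnegative third difference -/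
lemma third_diff_nonneg (f f1 f2 f3 : ℝ → ℝ) (a : ℝ)
    (h01 : ∀ x, a ≤ x → HasDerivAt f (f1 x) x) (h12 : ∀ x, a ≤ x → HasDerivAt f1 (f2 x) x)
    (h23 : ∀ x, a ≤ x → HasDerivAt f2 (f3 x) x) (h3 : ∀ x, a ≤ x → 0 ≤ f3 x) :
    0 ≤ f (a + 3) - 3 * f (a + 2) + 3 * f (a + 1) - f a := by
  have shift : ∀ (g g' : ℝ → ℝ) (c : ℝ), 0 ≤ c → (∀ x, a ≤ x → HasDerivAt g (g' x) x) →
      ∀ x, a ≤ x → HasDerivAt (fun y => g (y + c)) (g' (x + c)) x := by
    intro g g' c hc hg x hx
    exact (hg (x + c) (by linarith)).comp_add_const x c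
  have mono : ∀ (g g' : ℝ → ℝ), (∀ x, a ≤ x → HasDerivAt g (g' x) x) →
      (∀ x, a ≤ x → 0 ≤ g' x) → MonotoneOn g (Set.Ici a) := by
    intro g g' hg hg'
    apply monotoneOn_of_deriv_nonneg (convex_Ici a)
    · intro y hy
      exact (hg y hy).continuousAt.continuousWithinAt
    · intro y hy
      rw [interior_Ici] at hy
      exact (hg y (le_of_lt hy)).differentiableAt.differentiableWithinAt
    · intro y hy
      rw [interior_Ici] at hy
      rw [(hg y (le_of_lt hy)).deriv]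
      exact hg' y (le_of_lt hy)
  have m2 := mono f2 f3 h23 h3
  have m1 := mono (fun y => f1 (y + 1) - f1 y) (fun y => f2 (y + 1) - f2 y)
    (fun x hx => (shift f1 f2 1 (by norm_num) h12 x hx).sub (h12 x hx))
    (fun x hx => by
      have := m2 (show x ∈ Set.Ici a from hx) (show x + 1 ∈ Set.Ici a by simp; linarith)
        (by linarith)
      linarith)
  have m0 := mono (fun y => f (y + 2) - 2 * f (y + 1) + f y)
    (fun y => f1 (y + 2) - 2 * f1 (y + 1) + f1 y)
    (fun x hx => ((shift f f1 2 (by norm_num) h01 x hx).sub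
      ((shift f f1 1 (by norm_num) h01 x hx).const_mul 2)).add (h01 x hx))
    (fun x hx => by
      have := m1 (show x ∈ Set.Ici a from hx) (show x + 1 ∈ Set.Ici a by simp; linarith)
        (by linarith)
      simp only at this
      rw [show x + 1 + 1 = x + 2 by ring] at this
      linarith)
  have := m0 (show a ∈ Set.Ici a by simp) (show a + 1 ∈ Set.Ici a by simp) (by linarith)
  simp only at this
  rw [show a + 1 + 2 = a + 3 by ring, show a + 1 + 1 = a + 2 by ring] at this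
  linarith

lemma gam_zero (h0 : 0 < H) : gam H 0 = 1 := by
  unfold gam
  have h2 : (0 : ℝ) ^ (2 * H) = 0 := Real.zero_rpow (by linarith)
  simp [h2]

lemma phi_zero (h0 : 0 < H) : phi H 0 = 2 - (2 : ℝ) ^ (2 * H) / 2 := by
  unfold phi
  have h1 := gam_succ (H := H) 0
  have h2 : (0 : ℝ) ^ (2 * H) = 0 := Real.zero_rpow (by linarith)
  have h3 : gam H ((0 : ℕ) : ℤ) = 1 := by
    have := gam_zero h0
    simpa using this
  rw [h3, h1]
  simp only [Nat.cast_zero, zero_add, Real.one_rpow, h2]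
  ring

lemma phi_succ (n : ℕ) : phi H (n + 1)
    = -(((n : ℝ) + 3) ^ (2 * H) - 3 * ((n : ℝ) + 2) ^ (2 * H) + 3 * ((n : ℝ) + 1) ^ (2 * H)
      - (n : ℝ) ^ (2 * H)) / 2 := by
  unfold phi
  have h1 := gam_succ (H := H) n
  have h2 := gam_succ (H := H) (n + 1)
  have e1 : ((n + 1 : ℕ) : ℤ) = (n : ℤ) + 1 := by push_cast; ring
  have e2 : (((n + 1 : ℕ) : ℝ)) = (n : ℝ) + 1 := by push_cast; ring
  rw [e1] at h2 ⊢
  rw [e2] at h2
  rw [h1, h2, show (n : ℝ) + 1 + 2 = (n : ℝ) + 3 by ring, show (n : ℝ) + 1 + 1 = (n : ℝ) + 2 by ring]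
  ring

lemma phi_pos (h0 : 1 / 2 < H) (h1 : H < 1) (n : ℕ) : 0 < phi H n := by
  rcases n with _ | n
  · rw [phi_zero (by linarith)]
    have : (2 : ℝ) ^ (2 * H) < (2 : ℝ) ^ (2 : ℝ) :=
      Real.rpow_lt_rpow_of_exponent_lt (by norm_num) (by linarith)
    have h4 : (2 : ℝ) ^ (2 : ℝ) = 4 := by
      rw [show (2 : ℝ) = ((2 : ℕ) : ℝ) by norm_num, Real.rpow_natCast]; norm_num
    linarith
  · rw [phi_succ]
    have := d3_neg (s := 2 * H) (by linarith) (by linarith) (x := (n : ℝ)) (Nat.cast_nonneg n)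
    linarith

lemma three_pow_le : (3 : ℝ) ^ ((9 : ℝ) / 16) ≤ 2 := by
  rw [← pow_le_pow_iff_left₀ (by positivity) (by norm_num) (show (16 : ℕ) ≠ 0 by norm_num)]
  rw [← Real.rpow_natCast, ← Real.rpow_mul (by norm_num)]
  have : (9 : ℝ) / 16 * ((16 : ℕ) : ℝ) = ((9 : ℕ) : ℝ) := by norm_num
  rw [this, Real.rpow_natCast]
  norm_num

lemma small_case {s : ℝ} (h1 : s ≤ 2) : 0 ≤ (3 : ℝ) ^ s - 4 * (2 : ℝ) ^ s + 7 := by
  have a1 := Real.geom_mean_le_arith_mean2_weighted (show (0 : ℝ) ≤ 9 / 16 by norm_num)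
    (show (0 : ℝ) ≤ 7 / 16 by norm_num) (show (0 : ℝ) ≤ (3 : ℝ) ^ (s - 2) by positivity)
    (show (0 : ℝ) ≤ 1 by norm_num) (by norm_num)
  rw [Real.one_rpow, mul_one, mul_one] at a1
  have a2 : (2 : ℝ) ^ (s - 2) ≤ ((3 : ℝ) ^ (s - 2)) ^ ((9 : ℝ) / 16) := by
    rw [← Real.rpow_mul (by norm_num), mul_comm, Real.rpow_mul (by norm_num)]
    exact Real.rpow_le_rpow_of_nonpos (by positivity) three_pow_le (by linarith)
  have e3 : (3 : ℝ) ^ s = 9 * (3 : ℝ) ^ (s - 2) := by
    rw [Real.rpow_sub (by norm_num)]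
    have : (3 : ℝ) ^ (2 : ℝ) = 9 := by
      rw [show (2 : ℝ) = ((2 : ℕ) : ℝ) by norm_num, Real.rpow_natCast]; norm_num
    rw [this]; ring
  have e2 : (2 : ℝ) ^ s = 4 * (2 : ℝ) ^ (s - 2) := by
    rw [Real.rpow_sub (by norm_num)]
    have : (2 : ℝ) ^ (2 : ℝ) = 4 := by
      rw [show (2 : ℝ) = ((2 : ℕ) : ℝ) by norm_num, Real.rpow_natCast]; norm_num
    rw [this]; ring
  rw [e3, e2]
  linarith

lemma phi_anti (h0 : 1 / 2 < H) (h1 : H < 1) (n : ℕ) : phi H (n + 1) ≤ phi H n := by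
  rcases n with _ | n
  · rw [phi_zero (by linarith), phi_succ]
    have h2 : (0 : ℝ) ^ (2 * H) = 0 := Real.zero_rpow (by linarith)
    simp only [Nat.cast_zero, zero_add, Real.one_rpow, h2]
    have := small_case (s := 2 * H) (by linarith)
    linarith
  · rw [phi_succ, phi_succ]
    have := d4_nonneg (s := 2 * H) (by linarith) (by linarith) (x := (n : ℝ)) (Nat.cast_nonneg n)
    push_cast
    rw [show (n : ℝ) + 1 + 3 = (n : ℝ) + 4 by ring, show (n : ℝ) + 1 + 2 = (n : ℝ) + 3 by ring,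
      show (n : ℝ) + 1 + 1 = (n : ℝ) + 2 by ring]
    linarith

lemma rpow_cmp {t : ℝ} (h2 : t ≤ 2) {m x : ℝ} (hm : 2 ≤ m) (hx : m ≤ x) :
    (m - 1) * x ^ (-t) ≤ (m + 2) * (x + 1) ^ (-t) := by
  have hx0 : 0 < x := by linarith
  rw [Real.rpow_neg hx0.le, Real.rpow_neg (by linarith)]
  have hp : 0 < x ^ t := Real.rpow_pos_of_pos hx0 _
  have hq : 0 < (x + 1) ^ t := Real.rpow_pos_of_pos (by linarith) _
  rw [← div_eq_mul_inv, ← div_eq_mul_inv, div_le_div_iff₀ hp hq]
  have e : (x + 1) ^ t = x ^ t * ((x + 1) / x) ^ t := by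
    rw [← Real.mul_rpow hx0.le (by positivity)]
    congr 1
    field_simp
  have b : ((x + 1) / x) ^ t ≤ ((x + 1) / x) ^ (2 : ℝ) := by
    apply Real.rpow_le_rpow_of_exponent_le _ h2
    rw [le_div_iff₀ hx0]; linarith
  have b2 : ((x + 1) / x) ^ (2 : ℝ) = ((x + 1) / x) ^ 2 := by
    rw [show (2 : ℝ) = ((2 : ℕ) : ℝ) by norm_num, Real.rpow_natCast]
  rw [b2] at b
  have c : (m - 1) * ((x + 1) / x) ^ 2 ≤ m + 2 := by
    rw [div_pow, ← mul_div_assoc, div_le_iff₀ (by positivity)]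
    nlinarith [mul_nonneg (show 0 ≤ x - m by linarith) hx0.le, mul_self_nonneg (x - 1)]
  rw [e]
  calc (m - 1) * (x ^ t * ((x + 1) / x) ^ t) = x ^ t * ((m - 1) * ((x + 1) / x) ^ t) := by ring
    _ ≤ x ^ t * ((m - 1) * ((x + 1) / x) ^ 2) := by
        apply mul_le_mul_of_nonneg_left _ hp.le
        exact mul_le_mul_of_nonneg_left b (by linarith)
    _ ≤ x ^ t * (m + 2) := mul_le_mul_of_nonneg_left c hp.le
    _ = (m + 2) * x ^ t := by ring

lemma phi_slow (h0 : 1 / 2 < H) (h1 : H < 1) (m : ℕ) (hm : 2 ≤ m) :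
    ((m : ℝ) - 1) * phi H (m + 1) ≤ ((m : ℝ) + 2) * phi H (m + 2) := by
  have hm' : (2 : ℝ) ≤ m := by exact_mod_cast hm
  set s := 2 * H with hs
  have key := third_diff_nonneg
    (fun x => ((m : ℝ) - 1) * (x + 0) ^ s - ((m : ℝ) + 2) * (x + 1) ^ s)
    (fun x => ((m : ℝ) - 1) * (s * (x + 0) ^ (s - 1)) - ((m : ℝ) + 2) * (s * (x + 1) ^ (s - 1)))
    (fun x => ((m : ℝ) - 1) * (s * ((s - 1) * (x + 0) ^ (s - 1 - 1)))
      - ((m : ℝ) + 2) * (s * ((s - 1) * (x + 1) ^ (s - 1 - 1))))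
    (fun x => ((m : ℝ) - 1) * (s * ((s - 1) * ((s - 1 - 1) * (x + 0) ^ (s - 1 - 1 - 1))))
      - ((m : ℝ) + 2) * (s * ((s - 1) * ((s - 1 - 1) * (x + 1) ^ (s - 1 - 1 - 1)))))
    (m : ℝ)
    (fun x hx => ((hasDeriv_shift 0 s (Or.inl (by linarith))).const_mul _).sub
      ((hasDeriv_shift 1 s (Or.inl (by linarith))).const_mul _))
    (fun x hx => (((hasDeriv_shift 0 (s - 1) (Or.inl (by linarith))).const_mul _).const_mul _).sub
      (((hasDeriv_shift 1 (s - 1) (Or.inl (by linarith))).const_mul _).const_mul _))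
    (fun x hx => ((((hasDeriv_shift 0 (s - 1 - 1)
        (Or.inl (by linarith))).const_mul _).const_mul _).const_mul _).sub
      ((((hasDeriv_shift 1 (s - 1 - 1)
        (Or.inl (by linarith))).const_mul _).const_mul _).const_mul _))
    (fun x hx => by
      have hc := rpow_cmp (t := 3 - s) (by linarith) hm' hx
      rw [show -(3 - s) = s - 1 - 1 - 1 by ring] at hc
      have hneg : 0 ≤ -(s * ((s - 1) * (s - 1 - 1))) := by
        have h3 : 0 ≤ s * (s - 1) := mul_nonneg (by linarith) (by linarith)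
        have h4 : 0 ≤ 2 - s := by linarith
        nlinarith [mul_nonneg h3 h4]
      have hd : 0 ≤ ((m : ℝ) + 2) * (x + 1) ^ (s - 1 - 1 - 1)
          - ((m : ℝ) - 1) * x ^ (s - 1 - 1 - 1) := by linarith
      have := mul_nonneg hneg hd
      rw [add_zero]
      linarith)
  have p1 := phi_succ (H := H) m
  have p2 := phi_succ (H := H) (m + 1)
  rw [← hs] at p1 p2
  push_cast at p2
  rw [show m + 1 + 1 = m + 2 by ring] at p2
  simp only [add_zero] at key
  rw [show (m : ℝ) + 1 + 3 = (m : ℝ) + 4 by ring, show (m : ℝ) + 1 + 2 = (m : ℝ) + 3 by ring,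
    show (m : ℝ) + 1 + 1 = (m : ℝ) + 2 by ring] at p2
  rw [show (m : ℝ) + 3 + 1 = (m : ℝ) + 4 by ring, show (m : ℝ) + 2 + 1 = (m : ℝ) + 3 by ring,
    show (m : ℝ) + 1 + 1 = (m : ℝ) + 2 by ring] at key
  rw [p1, p2]
  linarith

lemma del_succ (n : ℕ) : del H ((n : ℤ) + 1) = phi H (n + 1) - phi H n := by
  unfold del phi
  rw [add_sub_cancel_right]
  push_cast
  ring

lemma del_neg (j : ℤ) : del H (-j) = del H j := by
  unfold del
  rw [gam_neg, show -j + 1 = -(j - 1) by ring, gam_neg, show -j - 1 = -(j + 1) by ring, gam_neg]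
  ring

theorem del_good (h0 : 1 / 2 < H) (h1 : H < 1) :
    Pool.Agent.K4H30.FNA.Good (del H) (phi H) 3 where
  nonpos := by
    intro j hj
    have hs : ∀ n : ℕ, del H ((n : ℤ) + 1) ≤ 0 := by
      intro n
      rw [del_succ]
      have := phi_anti h0 h1 n
      linarith
    rcases lt_or_gt_of_ne hj with h | h
    · rw [← del_neg]
      obtain ⟨n, hn⟩ := Int.eq_ofNat_of_zero_le (show (0 : ℤ) ≤ -j - 1 by omega)
      have : -j = (n : ℤ) + 1 := by omega
      rw [this]; exact hs n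
    · obtain ⟨n, hn⟩ := Int.eq_ofNat_of_zero_le (show (0 : ℤ) ≤ j - 1 by omega)
      have : j = (n : ℤ) + 1 := by omega
      rw [this]; exact hs n
  pos := phi_pos h0 h1
  row := del_row
  key := by
    intro n
    rw [del_succ]
    have hp := phi_pos h0 h1 n
    have hp1 := phi_pos h0 h1 (n + 1)
    rcases Nat.lt_or_ge n 3 with hn | hn
    · have hn' : (n : ℝ) + 1 ≤ 3 := by
        have : n + 1 ≤ 3 := hn
        exact_mod_cast this
      have hn0 : (0 : ℝ) ≤ (n : ℝ) + 1 := by positivity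
      have e1 : ((n : ℝ) + 1) * (-(phi H (n + 1) - phi H n)) ≤ ((n : ℝ) + 1) * phi H n :=
        mul_le_mul_of_nonneg_left (by linarith) hn0
      have e2 : ((n : ℝ) + 1) * phi H n ≤ 3 * phi H n := mul_le_mul_of_nonneg_right hn' hp.le
      linarith
    · obtain ⟨m, rfl⟩ := Nat.exists_eq_add_of_le' (show 1 ≤ n by omega)
      have := phi_slow h0 h1 m (by omega)
      push_cast
      rw [show m + 1 + 1 = m + 2 by ring]
      nlinarith

end Pool.Agent.K4H30.FN
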