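import Pool.Agent.K4H30.FN.Base

/-!
The prediction coefficients of a point at distance `r` to the left of `{0, ..., N-1}`, with
opposite sign, are nonnegative numbers `U N r i`; the two trace estimates.
-/

namespace Pool.Agent.K4H30.FN

open Finset

variable {H : ℝ}

/-- covariance matrix of `M` consecutive unit increments -/
noncomputable def Sig (H : ℝ) (M : ℕ) : Matrix (Fin M) (Fin M) ℝ :=
  Matrix.of fun i j => gam H (((i : ℕ) : ℤ) - ((j : ℕ) : ℤ))

lemma sig_isUnit (h0 : 0 < H) (h1 : H ≤ 1 / 2) (N : ℕ) : IsUnit (Sig H N) := by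
  rw [← Matrix.mulVec_injective_iff_isUnit]
  intro v w hvw
  have key : ∀ v w : Fin N → ℝ, (Sig H N).mulVec v = (Sig H N).mulVec w → ∀ i, v i ≤ w i := by
    intro v w hvw i
    have := comp_le h0 h1 N (fun m => if h : m < N then v ⟨m, h⟩ else 0)
      (fun m => if h : m < N then w ⟨m, h⟩ else 0) (by
        intro i hi
        rw [sum_range, sum_range]
        have := congrFun hvw ⟨i, hi⟩
        simp only [Matrix.mulVec, dotProduct, Sig, Matrix.of_apply] at this
        simp only [Fin.is_lt, dite_true, Fin.eta]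
        exact this.le) i.1 i.2
    simpa using this
  funext i
  exact le_antisymm (key v w hvw i) (key w v hvw.symm i)

/-- minus the coefficient at `i` in the prediction of the point `-r` from `{0, ..., N-1}` -/
noncomputable def U (H : ℝ) (N r i : ℕ) : ℝ :=
  if h : i < N then - ((Sig H N)⁻¹.mulVec fun z : Fin N => gam H (((z : ℕ) : ℤ) + (r : ℤ))) ⟨i, h⟩
  else 0

lemma U_eq (h0 : 0 < H) (h1 : H ≤ 1 / 2) (N r : ℕ) {i : ℕ} (hi : i < N) :
    ∑ m ∈ range N, gam H ((i : ℤ) - (m : ℤ)) * U H N r m = - gam H ((i : ℤ) + (r : ℤ)) := by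
  rw [sum_range]
  have hu := sig_isUnit h0 h1 N
  have h2 : (Sig H N).mulVec ((Sig H N)⁻¹.mulVec
      fun z : Fin N => gam H (((z : ℕ) : ℤ) + (r : ℤ))) ⟨i, hi⟩ = gam H ((i : ℤ) + (r : ℤ)) := by
    rw [Matrix.mulVec_mulVec, Matrix.mul_nonsing_inv _ ((Matrix.isUnit_iff_isUnit_det _).1 hu),
      Matrix.one_mulVec]
  rw [← h2]
  conv_rhs => rw [Matrix.mulVec, dotProduct]
  rw [← sum_neg_distrib]
  apply sum_congr rfl
  intro m _
  unfold U
  rw [dif_pos m.2]
  simp only [Sig, Matrix.of_apply, Fin.eta]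
  ring

lemma U_nonneg (h0 : 0 < H) (h1 : H ≤ 1 / 2) (N : ℕ) {r : ℕ} (hr : 1 ≤ r) (i : ℕ) :
    0 ≤ U H N r i := by
  by_cases hi : i < N
  · apply comp_nonneg h0 h1 N (U H N r) _ i hi
    intro i hi
    rw [U_eq h0 h1 N r hi]
    have := gam_nonpos h0 h1 (j := (i : ℤ) + (r : ℤ)) (by omega)
    linarith
  · unfold U
    rw [dif_neg hi]

lemma sum_window (F : ℕ → ℝ) {s N M : ℕ} (h : s + N ≤ M) :
    ∑ t ∈ range M, (if s ≤ t ∧ t < s + N then F t else 0) = ∑ i ∈ range N, F (s + i) := by
  rw [← sum_filter]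
  have : (range M).filter (fun t => s ≤ t ∧ t < s + N) = Ico s (s + N) := by
    ext t; simp only [mem_filter, mem_range, mem_Ico]; omega
  rw [this, sum_Ico_eq_sum_range]
  simp

/-- one translate: after extension by zero the potential is a subsolution -/
lemma translate (h0 : 0 < H) (h1 : H ≤ 1 / 2) {N M s : ℕ} (hs : s + N ≤ M) (t : ℕ) :
    ∑ t' ∈ range M, gam H ((t : ℤ) - (t' : ℤ)) *
        (if s ≤ t' ∧ t' < s + N then U H N (s + 1) (t' - s) else 0)
      ≤ if s ≤ t then - gam H ((t : ℤ) + 1) else 0 := by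
  have e : ∑ t' ∈ range M, gam H ((t : ℤ) - (t' : ℤ)) *
        (if s ≤ t' ∧ t' < s + N then U H N (s + 1) (t' - s) else 0)
      = ∑ i ∈ range N, gam H ((t : ℤ) - ((s + i : ℕ) : ℤ)) * U H N (s + 1) i := by
    have w := sum_window (fun t' => gam H ((t : ℤ) - (t' : ℤ)) * U H N (s + 1) (t' - s)) hs
    simp only [Nat.add_sub_cancel_left] at w
    rw [← w]
    apply sum_congr rfl
    intro t' _
    split_ifs <;> simp
  rw [e]
  by_cases ht : s ≤ t ∧ t < s + N
  · obtain ⟨i0, rfl⟩ := Nat.exists_eq_add_of_le ht.1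
    rw [if_pos ht.1]
    have := U_eq h0 h1 N (s + 1) (i := i0) (by omega)
    have e2 : ((s + i0 : ℕ) : ℤ) + 1 = (i0 : ℤ) + ((s + 1 : ℕ) : ℤ) := by push_cast; ring
    rw [e2, ← this]
    apply le_of_eq
    apply sum_congr rfl
    intro m _
    congr 2
    push_cast; ring
  · have hle : ∑ i ∈ range N, gam H ((t : ℤ) - ((s + i : ℕ) : ℤ)) * U H N (s + 1) i ≤ 0 := by
      apply sum_nonpos
      intro i hi
      rw [mem_range] at hi
      apply mul_nonpos_of_nonpos_of_nonneg
      · apply gam_nonpos h0 h1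
        omega
      · exact U_nonneg h0 h1 N (by omega) i
    refine hle.trans ?_
    split_ifs
    · have := gam_nonpos h0 h1 (j := (t : ℤ) + 1) (by omega)
      linarith
    · exact le_rfl

/-- the sum of the translates is at most one -/
lemma sum_diag_aux (h0 : 0 < H) (h1 : H ≤ 1 / 2) (N m : ℕ) (hm : 1 ≤ m) :
    ∑ s ∈ range m, (if s ≤ m - 1 ∧ m - 1 < s + N then U H N (s + 1) (m - 1 - s) else 0) ≤ 1 := by
  rcases Nat.eq_zero_or_pos N with rfl | hN
  · refine (sum_nonpos ?_).trans zero_le_one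
    intro s hs
    rw [if_neg (by omega)]
  have := comp_le h0 h1 (N + m - 1)
    (fun t => ∑ s ∈ range m, (if s ≤ t ∧ t < s + N then U H N (s + 1) (t - s) else 0))
    (fun _ => 1) (by
      intro t ht
      simp only [mul_one]
      have e1 : ∑ t' ∈ range (N + m - 1), gam H ((t : ℤ) - (t' : ℤ)) *
          ∑ s ∈ range m, (if s ≤ t' ∧ t' < s + N then U H N (s + 1) (t' - s) else 0)
          = ∑ s ∈ range m, ∑ t' ∈ range (N + m - 1), gam H ((t : ℤ) - (t' : ℤ)) *
          (if s ≤ t' ∧ t' < s + N then U H N (s + 1) (t' - s) else 0) := by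
        simp only [mul_sum]
        rw [sum_comm]
      rw [e1]
      have e2 : ∑ s ∈ range m, ∑ t' ∈ range (N + m - 1), gam H ((t : ℤ) - (t' : ℤ)) *
          (if s ≤ t' ∧ t' < s + N then U H N (s + 1) (t' - s) else 0)
          ≤ ∑ s ∈ range m, (if s ≤ t then - gam H ((t : ℤ) + 1) else 0) := by
        apply sum_le_sum
        intro s hs
        rw [mem_range] at hs
        exact translate h0 h1 (by omega) t
      refine e2.trans ?_
      have hp : 0 ≤ - gam H ((t : ℤ) + 1) := by
        have := gam_nonpos h0 h1 (j := (t : ℤ) + 1) (by omega)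
        linarith
      have e3 : ∑ s ∈ range m, (if s ≤ t then - gam H ((t : ℤ) + 1) else 0)
          ≤ ((t : ℝ) + 1) * (- gam H ((t : ℤ) + 1)) := by
        rw [← sum_filter, sum_const, nsmul_eq_mul]
        apply mul_le_mul_of_nonneg_right _ hp
        have : ((range m).filter (fun s => s ≤ t)).card ≤ (range (t + 1)).card := by
          apply card_le_card
          intro s hs
          simp only [mem_filter, mem_range] at hs ⊢
          omega
        rw [card_range] at this
        exact_mod_cast this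
      exact (e3.trans (key h0 t)).trans (row_sum_ge h0 ht)) (m - 1) (by omega)
  exact this

/-- the diagonal estimate -/
lemma sum_diag (h0 : 0 < H) (h1 : H ≤ 1 / 2) (N m : ℕ) :
    ∑ j ∈ range N, (if j < m then U H N (m - j) j else 0) ≤ 1 := by
  rcases Nat.eq_zero_or_pos m with rfl | hm
  · simp
  have e : ∑ j ∈ range N, (if j < m then U H N (m - j) j else 0)
      = ∑ j ∈ range m, (if j < N then U H N (m - j) j else 0) := by
    rw [← sum_filter, ← sum_filter]
    congr 1
    ext j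
    simp only [mem_filter, mem_range]
    omega
  rw [e, ← sum_range_reflect]
  refine le_trans (le_of_eq ?_) (sum_diag_aux h0 h1 N m hm)
  apply sum_congr rfl
  intro s hs
  rw [mem_range] at hs
  have e1 : m - (m - 1 - s) = s + 1 := by omega
  rw [e1]
  by_cases h : m - 1 - s < N
  · rw [if_pos h, if_pos (by omega)]
  · rw [if_neg h, if_neg (by omega)]

/-- composition: leave `{0,...,N-1}` through `{-k,...,-1}`, then leave `{-k,...,N-1-k}` -/
lemma compose (h0 : 0 < H) (h1 : H ≤ 1 / 2) {N k r : ℕ} (hk : k ≤ N) (hr : 1 ≤ r) :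
    ∀ i < N, ∑ j ∈ range k, U H N (k - j) i * U H N r j ≤ U H (k + N) r (k + i) := by
  have step1 : ∀ x < N, U H N r x ≤ U H (k + N) r x := by
    apply comp_le h0 h1 N
    intro x hx
    rw [U_eq h0 h1 N r hx]
    have h3 := U_eq h0 h1 (k + N) r (i := x) (by omega)
    rw [show k + N = N + k by omega, sum_range_add, show N + k = k + N by omega] at h3
    have h4 : ∑ w ∈ range k, gam H ((x : ℤ) - ((N + w : ℕ) : ℤ)) * U H (k + N) r (N + w) ≤ 0 := by
      apply sum_nonpos
      intro w _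
      apply mul_nonpos_of_nonpos_of_nonneg
      · apply gam_nonpos h0 h1
        omega
      · exact U_nonneg h0 h1 _ hr _
    linarith
  apply comp_le h0 h1 N
  intro i hi
  have e1 : ∑ m ∈ range N, gam H ((i : ℤ) - (m : ℤ)) * ∑ j ∈ range k, U H N (k - j) m * U H N r j
      = ∑ j ∈ range k, (- gam H ((i : ℤ) + ((k - j : ℕ) : ℤ))) * U H N r j := by
    simp only [mul_sum]
    rw [sum_comm]
    apply sum_congr rfl
    intro j _
    rw [← U_eq h0 h1 N (k - j) hi, sum_mul]
    apply sum_congr rfl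
    intro m _
    ring
  rw [e1]
  have h3 := U_eq h0 h1 (k + N) r (i := k + i) (by omega)
  rw [sum_range_add] at h3
  have e2 : ∑ m ∈ range N, gam H (((k + i : ℕ) : ℤ) - ((k + m : ℕ) : ℤ)) * U H (k + N) r (k + m)
      = ∑ m ∈ range N, gam H ((i : ℤ) - (m : ℤ)) * U H (k + N) r (k + m) := by
    apply sum_congr rfl
    intro m _
    congr 2
    push_cast; ring
  rw [e2] at h3
  have h4 : gam H (((k + i : ℕ) : ℤ) + (r : ℤ)) ≤ 0 := gam_nonpos h0 h1 (by omega)
  have h5 : ∑ j ∈ range k, (- gam H ((i : ℤ) + ((k - j : ℕ) : ℤ))) * U H N r j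
      ≤ - ∑ w ∈ range k, gam H (((k + i : ℕ) : ℤ) - (w : ℤ)) * U H (k + N) r w := by
    rw [← sum_neg_distrib]
    apply sum_le_sum
    intro j hj
    rw [mem_range] at hj
    have e3 : ((k + i : ℕ) : ℤ) - (j : ℤ) = (i : ℤ) + ((k - j : ℕ) : ℤ) := by omega
    rw [e3]
    have h6 : gam H ((i : ℤ) + ((k - j : ℕ) : ℤ)) ≤ 0 := gam_nonpos h0 h1 (by omega)
    have h7 := step1 j (by omega)
    nlinarith
  linarith

end Pool.Agent.K4H30.FN
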